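import Pool.Agent.Run7.h105.PC.Defs

/-! LOWC of project PC (helper105). -/

set_option autoImplicit false

open Filter Topology Set MeasureTheory
open scoped ENNReal

namespace Pool.Agent.Run7.h227.PC

open Pool.Agent.Run7.h105.PC

theorem U_mono {s : ℝ} {X Y : Multiset ℝ} (h : X ≤ Y) (y : ℝ) : U s X y ≤ U s Y y := by
  obtain ⟨Z, rfl⟩ := Multiset.le_iff_exists_add.1 h
  rw [U_add]
  exact le_self_add

theorem rpow_anti {s δ δ' : ℝ} (hs : 0 < s) (hδ : δ ≤ δ') :
    (ENNReal.ofReal δ') ^ (-s) ≤ (ENNReal.ofReal δ) ^ (-s) := by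
  rw [ENNReal.rpow_neg, ENNReal.rpow_neg]
  exact ENNReal.inv_le_inv.2 (ENNReal.rpow_le_rpow (ENNReal.ofReal_le_ofReal hδ) hs.le)

theorem t_LOWC (hSC : S_SC) (hPERT : S_PERT) (hG1 : S_G1) : S_LOWC := by
  intro s hs K hK m r k hm hr hk X hX
  classical
  obtain ⟨C, hCc, -, hC⟩ := hG1 s hs m
  have hm0 : (0 : ℝ) < m := by exact_mod_cast hm
  have hr0 : (0 : ℝ) < r := by exact_mod_cast hr
  have hk0 : (0 : ℝ) < k := by exact_mod_cast hk
  have hr1 : (1 : ℝ) ≤ r := by exact_mod_cast hr
  set δ : ℝ := 1 / ((m : ℝ) * k) with hδ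
  have hδ0 : 0 < δ := by positivity
  have hmδ : (m : ℝ) * δ = 1 / k := by
    rw [hδ]
    field_simp
  set p : ℕ := m * r ^ 2 with hp
  have hp1 : 1 ≤ p := Nat.one_le_iff_ne_zero.2 (by positivity)
  have hp0 : (0 : ℝ) < p := by exact_mod_cast hp1
  have hθ : (1 / (r : ℝ)) ^ 2 * δ = 1 / ((k : ℝ) * p) := by
    rw [hδ, hp]
    push_cast
    field_simp
  let P : ℕ → Multiset ℝ := fun i => C.map fun x => (i : ℝ) / k + δ * x
  let Q : ℕ → Multiset ℝ := fun i => (Finset.range (m + 1)).val.map fun l : ℕ => (i : ℝ) / k + l * δ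
  let Y : Multiset ℝ := X + ∑ i ∈ Finset.range (k + 1) \ cells K k, P i + ∑ i ∈ bad K k p, Q i
  have hle : δ ≤ (1 + 1 / (r : ℝ)) * δ := by
    have : 0 < 1 / (r : ℝ) := by positivity
    nlinarith
  refine ⟨Y, ?_, ?_⟩
  · intro y hy
    set i : ℕ := ⌊(k : ℝ) * y⌋₊ with hi
    have hky : 0 ≤ (k : ℝ) * y := mul_nonneg hk0.le hy.1
    have hi1 : (i : ℝ) ≤ k * y := Nat.floor_le hky
    have hi2 : (k : ℝ) * y < i + 1 := Nat.lt_floor_add_one _
    have hik : i ≤ k := by
      have : (i : ℝ) ≤ k := hi1.trans (by nlinarith [hy.2])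
      exact_mod_cast this
    have hyi : 0 ≤ y - (i : ℝ) / k := by
      rw [sub_nonneg, div_le_iff₀ hk0]
      linarith
    have hyi2 : y - (i : ℝ) / k ≤ 1 / k := by
      rw [sub_le_iff_le_add, ← add_div, le_div_iff₀ hk0]
      linarith
    by_cases h1 : i ∈ cells K k
    · by_cases h2 : i ∈ bad K k p
      · -- bad cells
        refine (rpow_anti hs hle).trans ?_
        set l : ℕ := ⌊(y - (i : ℝ) / k) / δ⌋₊ with hl
        have h0 : 0 ≤ (y - (i : ℝ) / k) / δ := div_nonneg hyi hδ0.le
        have hl1 : (l : ℝ) ≤ (y - (i : ℝ) / k) / δ := Nat.floor_le h0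
        have hl2 : (y - (i : ℝ) / k) / δ < l + 1 := Nat.lt_floor_add_one _
        rw [le_div_iff₀ hδ0] at hl1
        rw [div_lt_iff₀ hδ0] at hl2
        have hlm : l ≤ m := by
          have h3 : (l : ℝ) * δ ≤ m * δ := by rw [hmδ]; exact hl1.trans hyi2
          have h4 : (l : ℝ) ≤ m := le_of_mul_le_mul_right h3 hδ0
          exact_mod_cast h4
        have hmem : (i : ℝ) / k + l * δ ∈ Y := by
          refine Multiset.mem_add.2 (Or.inr ?_)
          refine Multiset.mem_of_le (Finset.single_le_sum (f := Q) (fun _ _ => Multiset.zero_le _) h2) ?_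
          exact Multiset.mem_map.2 ⟨l, Finset.mem_range.2 (Nat.lt_succ_of_le hlm), rfl⟩
        refine le_U_of_mem hs hmem ?_
        rw [abs_le]
        constructor <;> nlinarith
      · -- good cells
        set j : ℕ := ⌊(k : ℝ) * p * y⌋₊ with hj
        have hkpy : 0 ≤ (k : ℝ) * p * y := mul_nonneg (by positivity) hy.1
        have hj1 : (j : ℝ) ≤ k * p * y := Nat.floor_le hkpy
        have hj2 : (k : ℝ) * p * y < j + 1 := Nat.lt_floor_add_one _
        have hj3 : i * p ≤ j := by
          refine Nat.le_floor ?_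
          push_cast
          nlinarith
        have hj4 : j < (i + 1) * p := by
          have : (j : ℝ) < ((i + 1 : ℕ) : ℝ) * p := by
            push_cast
            nlinarith
          exact_mod_cast this
        have hjc : j ∈ cells K (k * p) := by
          by_contra hne
          exact h2 (Finset.mem_filter.2 ⟨h1, j, hj3, hj4, hne⟩)
        obtain ⟨-, z, hz, hz1, hz2⟩ := Finset.mem_filter.1 hjc
        have hkp : (0 : ℝ) < ((k * p : ℕ) : ℝ) := by
          push_cast
          positivity
        rw [div_le_iff₀ hkp] at hz1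
        rw [lt_div_iff₀ hkp] at hz2
        push_cast at hz1 hz2
        have hyz : |y - z| ≤ 1 / ((k : ℝ) * p) := by
          have hkp' : (0 : ℝ) < (k : ℝ) * p := by positivity
          rw [abs_le]
          constructor
          · rw [neg_le, neg_sub, sub_le_iff_le_add, ← sub_le_iff_le_add, le_div_iff₀ hkp']
            nlinarith
          · rw [le_div_iff₀ hkp']
            nlinarith
        have h5 := hPERT s (1 / (r : ℝ)) δ hs (by positivity)
          (by rw [div_le_one hr0]; exact hr1) hδ0 X (fun x => |z - x|) (fun x => |y - x|)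
          (fun x _ => abs_nonneg _) (fun x _ => by
            rw [hθ]
            have h6 : |y - x| ≤ |y - z| + |z - x| := abs_sub_le y z x
            show |y - x| ≤ |z - x| + 1 / ((k : ℝ) * p)
            linarith) (hX z hz)
        refine le_trans h5 ?_
        exact U_mono (s := s) (X := X) (Y := Y)
          ((Multiset.le_add_right _ _).trans (Multiset.le_add_right _ _)) y
    · -- empty cells
      refine (rpow_anti hs hle).trans ?_
      have h3 := hSC s ((i : ℝ) / k) δ 1 hs hδ0 one_pos (Icc 0 (m : ℝ)) C hC y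
        ⟨div_nonneg hyi hδ0.le, by rw [div_le_iff₀ hδ0, hmδ]; exact hyi2⟩
      rw [mul_one] at h3
      refine le_trans h3 ?_
      refine U_mono (s := s) (X := P i) (Y := Y) ?_ y
      have h4 : P i ≤ ∑ i ∈ Finset.range (k + 1) \ cells K k, P i :=
        Finset.single_le_sum (f := P) (fun _ _ => Multiset.zero_le _)
          (Finset.mem_sdiff.2 ⟨Finset.mem_range.2 (Nat.lt_succ_of_le hik), h1⟩)
      exact (h4.trans (Multiset.le_add_left _ _)).trans (Multiset.le_add_right _ _)
  · have h1 : Y.card = X.card + ∑ i ∈ Finset.range (k + 1) \ cells K k, (P i).card +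
        ∑ i ∈ bad K k p, (Q i).card := by
      rw [Multiset.card_add, Multiset.card_add, Multiset.card_sum, Multiset.card_sum]
    have h2 : ∀ i, (P i).card = G s m := fun i => by
      rw [Multiset.card_map, hCc]
    have h3 : ∀ i, (Q i).card = m + 1 := fun i => by
      rw [Multiset.card_map]
      exact Finset.card_range (m + 1)
    have h4 : (Finset.range (k + 1) \ cells K k).card = k + 1 - (cells K k).card := by
      have hsub : cells K k ⊆ Finset.range (k + 1) := Finset.filter_subset _ _
      rw [Finset.card_sdiff_of_subset hsub, Finset.card_range]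
    rw [h1, Finset.sum_congr rfl fun i _ => h2 i, Finset.sum_congr rfl fun i _ => h3 i,
      Finset.sum_const, Finset.sum_const, h4, smul_eq_mul, smul_eq_mul, mul_comm (G s m),
      mul_comm (m + 1)]

end Pool.Agent.Run7.h227.PC
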